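import Pool.Agent.Helper10.RC.Basic

/-! Packet RC-Nc. -/

open scoped ENNReal NNReal InnerProductSpace ComplexOrder
open Filter Topology

attribute [-instance] CStarMatrix.instAlgebra CStarMatrix.instModule CStarMatrix.instSMul
  CStarMatrix.instMulAction CStarMatrix.instDistribMulAction

noncomputable section
namespace RC
universe u

namespace Nc53

/-- tent functions -/
def T (N : ℕ) (k : ℤ) (t : ℝ) : ℝ := max 0 (1 - |(N : ℝ) * t - k|)

theorem T_cont (N : ℕ) (k : ℤ) : Continuous (T N k) := by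
  unfold T
  fun_prop

theorem T_nonneg (N : ℕ) (k : ℤ) (t : ℝ) : 0 ≤ T N k t := le_max_left _ _

theorem T_eq_zero {N : ℕ} {k : ℤ} {t : ℝ} (h : 1 ≤ |(N : ℝ) * t - k|) : T N k t = 0 :=
  max_eq_left (by linarith)

theorem T_mul {N : ℕ} {k l : ℤ} (h : 2 ≤ |k - l|) (t : ℝ) : T N k t * T N l t = 0 := by
  by_contra hne
  have h1 : T N k t ≠ 0 := left_ne_zero_of_mul hne
  have h2 : T N l t ≠ 0 := right_ne_zero_of_mul hne
  have h3 : |(N : ℝ) * t - k| < 1 := by
    by_contra h4
    exact h1 (T_eq_zero (not_lt.mp h4))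
  have h5 : |(N : ℝ) * t - l| < 1 := by
    by_contra h4
    exact h2 (T_eq_zero (not_lt.mp h4))
  have h6 : |((k : ℝ) - l)| < 2 := by
    have : (k : ℝ) - l = ((N : ℝ) * t - l) - ((N : ℝ) * t - k) := by ring
    rw [this]
    calc _ ≤ |(N : ℝ) * t - l| + |(N : ℝ) * t - k| := abs_sub _ _
      _ < 2 := by linarith
  have h7 : ((2 : ℤ) : ℝ) ≤ ((|k - l| : ℤ) : ℝ) := by exact_mod_cast h
  rw [Int.cast_abs, Int.cast_sub] at h7
  push_cast at h7
  linarith

/-- sums against the tent functions -/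
theorem T_sum {N K : ℕ} {t : ℝ} (ht : |(N : ℝ) * t| ≤ K) (c d : ℝ) :
    ∑ k ∈ Finset.Icc (-(K : ℤ)) K, (c + d * k) * T N k t = c + d * (N * t) := by
  set r : ℝ := (N : ℝ) * t with hr
  have hrl := (abs_le.mp ht).1
  have hru := (abs_le.mp ht).2
  set n : ℤ := ⌊r⌋ with hn
  have hn1 : (n : ℝ) ≤ r := Int.floor_le r
  have hn2 : r < n + 1 := Int.lt_floor_add_one r
  have hnK : n ≤ K := by
    have : (n : ℝ) ≤ (K : ℤ) := by push_cast; linarith
    exact_mod_cast this
  have hnK' : -(K : ℤ) ≤ n := by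
    rw [hn]
    apply Int.le_floor.mpr
    push_cast
    linarith
  have hTn : T N n t = 1 - (r - n) := by
    unfold T
    rw [← hr, abs_of_nonneg (by linarith), max_eq_right (by linarith)]
  have hTn1 : T N (n + 1) t = r - n := by
    unfold T
    rw [← hr]
    push_cast
    rw [abs_of_nonpos (by linarith), max_eq_right (by linarith)]
    ring
  have hT0 : ∀ k : ℤ, k ≠ n → k ≠ n + 1 → T N k t = 0 := by
    intro k h1 h2
    apply T_eq_zero
    rw [← hr]
    rcases lt_or_gt_of_ne h1 with h3 | h3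
    · have h4 : (k : ℝ) + 1 ≤ n := by exact_mod_cast h3
      rw [abs_of_nonneg (by linarith)]
      linarith
    · have h5 : n + 1 < k := lt_of_le_of_ne h3 (Ne.symm h2)
      have h4 : (n : ℝ) + 1 + 1 ≤ k := by exact_mod_cast h5
      rw [abs_of_nonpos (by linarith)]
      linarith
  by_cases hlt : n < K
  · rw [Finset.sum_eq_add_of_mem n (n + 1) (Finset.mem_Icc.mpr ⟨hnK', hnK⟩)
      (Finset.mem_Icc.mpr ⟨by omega, by omega⟩) (by omega)
      (fun k _ hk => by rw [hT0 k hk.1 hk.2, mul_zero])]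
    rw [hTn, hTn1]
    push_cast
    ring
  · have hnK2 : n = K := le_antisymm hnK (not_lt.mp hlt)
    have hrn : r = n := by
      apply le_antisymm _ hn1
      rw [hnK2]
      push_cast
      exact hru
    rw [Finset.sum_eq_single_of_mem n (Finset.mem_Icc.mpr ⟨hnK', hnK⟩)]
    · rw [hTn, hrn]
      ring
    · intro k hk hkn
      have : T N k t = 0 := by
        apply hT0 k hkn
        have := (Finset.mem_Icc.mp hk).2
        omega
      rw [this, mul_zero]

/-- the sign -/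
def sg (i : ZMod 3) : ℝ := if i = 1 then 1 else if i = 2 then -1 else 0

theorem sg_abs (i : ZMod 3) : |sg i| ≤ 1 := by
  unfold sg
  split_ifs <;> simp

theorem sg_cast {k : ℤ} (h : |k| < 2) : sg ((k : ℤ) : ZMod 3) = k := by
  have h1 : k = -1 ∨ k = 0 ∨ k = 1 := by
    have := abs_lt.mp h
    omega
  rcases h1 with h1 | h1 | h1
  · subst h1
    have : ((-1 : ℤ) : ZMod 3) = 2 := by decide
    rw [this]
    unfold sg
    rw [if_neg (by decide), if_pos rfl]
    norm_num
  · subst h1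
    unfold sg
    rw [if_neg (by decide), if_neg (by decide)]
    norm_num
  · subst h1
    unfold sg
    rw [if_pos (by decide)]
    norm_num

theorem bound {A : Type u} [CStarAlgebra A] (x y : A) (hx : IsSelfAdjoint x)
    (hP : ∀ g h : ℝ → ℝ, Continuous g → Continuous h → (∀ t, 0 ≤ g t) → (∀ t, 0 ≤ h t) →
      (∀ t, g t * h t = 0) → cfc g x * y * cfc h x = 0) (N : ℕ) :
    (N : ℝ) * ‖x * y - y * x‖ ≤ 9 * ‖y‖ := by
  obtain ⟨K, hK⟩ := exists_nat_ge ((N : ℝ) * (‖x‖ * ‖(1 : A)‖))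
  have hsp : ∀ t ∈ spectrum ℝ x, |(N : ℝ) * t| ≤ K := by
    intro t ht
    have h1 := spectrum.norm_le_norm_mul_of_mem ht
    rw [Real.norm_eq_abs] at h1
    rw [abs_mul, Nat.abs_cast]
    exact le_trans (mul_le_mul_of_nonneg_left h1 (Nat.cast_nonneg N)) hK
  have hI : ∀ t ∈ spectrum ℝ x, ∀ c d : ℝ,
      ∑ k ∈ Finset.Icc (-(K : ℤ)) K, (c + d * k) * T N k t = c + d * (N * t) :=
    fun t ht c d => T_sum (hsp t ht) c d
  set I := Finset.Icc (-(K : ℤ)) K with hIdef
  obtain ⟨e, he⟩ : ∃ e : ℤ → A, ∀ k, e k = cfc (T N k) x := ⟨_, fun _ => rfl⟩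
  have hsum1 : ∑ k ∈ I, e k = 1 := by
    simp only [he]
    rw [← cfc_sum (fun k => T N k) x I (fun k _ => (T_cont N k).continuousOn)]
    rw [cfc_congr (g := fun _ : ℝ => (1 : ℝ))]
    · exact cfc_const_one ℝ x
    · intro t ht
      have := hI t ht 1 0
      simp only [zero_mul, add_zero, one_mul] at this
      simp only [Finset.sum_apply]
      exact this
  have hsum2 : ∑ k ∈ I, (k : ℝ) • e k = (N : ℝ) • x := by
    have h1 : ∀ k : ℤ, (k : ℝ) • e k = cfc (fun t => (k : ℝ) * T N k t) x := by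
      intro k
      rw [he, ← cfc_const_mul (k : ℝ) (T N k) x (T_cont N k).continuousOn]
    simp only [h1]
    rw [← cfc_sum (fun (k : ℤ) (t : ℝ) => (k : ℝ) * T N k t) x I
      (fun k _ => (continuous_const.mul (T_cont N k)).continuousOn)]
    rw [cfc_congr (g := fun t : ℝ => (N : ℝ) * t)]
    · rw [cfc_const_mul (N : ℝ) (fun t => t) x, cfc_id' ℝ x]
    · intro t ht
      have := hI t ht 0 1
      simp only [one_mul, zero_add] at this
      simp only [Finset.sum_apply]
      exact this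
  have hz : ∀ k l : ℤ, 2 ≤ |k - l| → e k * y * e l = 0 := by
    intro k l hkl
    rw [he, he]
    exact hP _ _ (T_cont N k) (T_cont N l) (T_nonneg N k) (T_nonneg N l) (T_mul hkl)
  have hcomm : (N : ℝ) • (x * y - y * x) =
      ∑ k ∈ I, ∑ l ∈ I, (sg (k : ZMod 3) - 0 + (sg (((k - l : ℤ)) : ZMod 3) - sg (k : ZMod 3))) •
        (e k * y * e l) := by
    have h1 : (N : ℝ) • (x * y - y * x) =
        ((N : ℝ) • x) * y * 1 - 1 * y * ((N : ℝ) • x) := by
      rw [mul_one, one_mul, smul_sub, smul_mul_assoc, mul_smul_comm]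
    rw [h1, ← hsum1, ← hsum2, Finset.sum_mul, Finset.sum_mul_sum, Finset.sum_mul,
      Finset.sum_mul_sum, ← Finset.sum_sub_distrib]
    refine Finset.sum_congr rfl fun k _ => ?_
    rw [← Finset.sum_sub_distrib]
    refine Finset.sum_congr rfl fun l _ => ?_
    rw [smul_mul_assoc, smul_mul_assoc, mul_smul_comm, ← sub_smul]
    by_cases h : 2 ≤ |k - l|
    · rw [hz k l h, smul_zero, smul_zero]
    · rw [sg_cast (not_le.mp h)]
      congr 1
      push_cast
      ring
  obtain ⟨a, ha⟩ : ∃ a : ZMod 3 → A, ∀ i, a i = ∑ k ∈ I with ((k : ℤ) : ZMod 3) = i, e k :=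
    ⟨_, fun _ => rfl⟩
  have hnorm : ∀ i, ‖a i‖ ≤ 1 := by
    intro i
    rw [ha]
    simp only [he]
    rw [← cfc_sum (fun k => T N k) x _ (fun k _ => (T_cont N k).continuousOn)]
    refine norm_cfc_le zero_le_one fun t ht => ?_
    rw [Finset.sum_apply, Real.norm_eq_abs,
      abs_of_nonneg (Finset.sum_nonneg fun k _ => T_nonneg N k t)]
    have h1 := hI t ht 1 0
    simp only [zero_mul, add_zero, one_mul] at h1
    rw [← h1]
    exact Finset.sum_le_sum_of_subset_of_nonneg (Finset.filter_subset _ _)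
      (fun k _ _ => T_nonneg N k t)
  have hfinal : (N : ℝ) • (x * y - y * x) =
      ∑ i : ZMod 3, ∑ j : ZMod 3, sg (i - j) • (a i * y * a j) := by
    rw [hcomm, ← Finset.sum_fiberwise I (fun k : ℤ => ((k : ℤ) : ZMod 3))]
    refine Finset.sum_congr rfl fun i _ => ?_
    have h1 : ∀ k ∈ I.filter (fun k : ℤ => ((k : ℤ) : ZMod 3) = i), ∑ l ∈ I,
        (sg (k : ZMod 3) - 0 + (sg (((k - l : ℤ)) : ZMod 3) - sg (k : ZMod 3))) •
        (e k * y * e l) = ∑ j : ZMod 3, sg (i - j) • (e k * y * a j) := by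
      intro k hk
      have hki := (Finset.mem_filter.mp hk).2
      rw [← Finset.sum_fiberwise I (fun k : ℤ => ((k : ℤ) : ZMod 3))]
      refine Finset.sum_congr rfl fun j _ => ?_
      rw [ha, Finset.mul_sum, Finset.smul_sum]
      refine Finset.sum_congr rfl fun l hl => ?_
      have hlj := (Finset.mem_filter.mp hl).2
      congr 1
      rw [Int.cast_sub, hki, hlj]
      ring
    rw [Finset.sum_congr rfl h1, Finset.sum_comm]
    refine Finset.sum_congr rfl fun j _ => ?_
    rw [← Finset.smul_sum, ha i, Finset.sum_mul, Finset.sum_mul]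
  have h1 : (N : ℝ) * ‖x * y - y * x‖ = ‖(N : ℝ) • (x * y - y * x)‖ := by
    rw [norm_smul, Real.norm_natCast]
  rw [h1, hfinal]
  have h2 : ∀ i j : ZMod 3, ‖sg (i - j) • (a i * y * a j)‖ ≤ ‖y‖ := by
    intro i j
    rw [norm_smul, Real.norm_eq_abs]
    calc _ ≤ 1 * (‖a i * y‖ * ‖a j‖) := by
          gcongr
          · exact sg_abs _
          · exact norm_mul_le _ _
      _ ≤ 1 * ((‖a i‖ * ‖y‖) * ‖a j‖) := by
          gcongr
          exact norm_mul_le _ _
      _ ≤ 1 * ((1 * ‖y‖) * 1) := by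
          gcongr
          · exact hnorm i
          · exact hnorm j
      _ = ‖y‖ := by ring
  calc _ ≤ ∑ i : ZMod 3, ‖∑ j : ZMod 3, sg (i - j) • (a i * y * a j)‖ := norm_sum_le _ _
    _ ≤ ∑ i : ZMod 3, ∑ j : ZMod 3, ‖sg (i - j) • (a i * y * a j)‖ :=
        Finset.sum_le_sum fun i _ => norm_sum_le _ _
    _ ≤ ∑ i : ZMod 3, ∑ j : ZMod 3, ‖y‖ :=
        Finset.sum_le_sum fun i _ => Finset.sum_le_sum fun j _ => h2 i j
    _ = 9 * ‖y‖ := by
        simp only [Finset.sum_const, Finset.card_univ, ZMod.card, nsmul_eq_mul]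
        push_cast
        ring

end Nc53

theorem ncP : NcP.{u} := by
  intro A _ x y hx hxy
  by_contra hcon
  push Not at hcon
  have hP : ∀ g h : ℝ → ℝ, Continuous g → Continuous h → (∀ t, 0 ≤ g t) → (∀ t, 0 ≤ h t) →
      (∀ t, g t * h t = 0) → cfc g x * y * cfc h x = 0 := hcon
  have h1 := Nc53.bound x y hx hP
  have h2 : ‖x * y - y * x‖ = 0 := by
    by_contra hne
    have hpos : 0 < ‖x * y - y * x‖ := lt_of_le_of_ne (norm_nonneg _) (Ne.symm hne)
    obtain ⟨N, hN⟩ := exists_nat_gt (9 * ‖y‖ / ‖x * y - y * x‖)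
    have h3 := h1 N
    rw [div_lt_iff₀ hpos] at hN
    linarith
  exact hxy (sub_eq_zero.mp (norm_eq_zero.mp h2))

end RC
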